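import Pool.Agent.N299.DT.Stm

/-!
Project DT (MP_fb67b4_an), task DT/WIN: cells of a non-scalar self-adjoint element.
-/

set_option autoImplicit false

open scoped Topology
open Filter

noncomputable section

namespace Pool.Agent.N383.DT

open Pool.Agent.N299 Pool.Agent.N299.DT

variable {E : Type} [CStarAlgebra E]

/-- `x` generates `E` as an ideal -/
def C1 (x : E) : Prop := ∃ (k : ℕ) (a b : Fin k → E), ∑ i, a i * x * b i = 1

/-- soft threshold -/
def sft (d l t : ℝ) : ℝ := (t - l) - max (-|d|) (min |d| (t - l))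

lemma sft_cont (d l : ℝ) : Continuous (sft d l) := by unfold sft; fun_prop

lemma sft_near (d l t : ℝ) : |sft d l t - (t - l)| ≤ |d| := by
  have hd := abs_nonneg d
  unfold sft
  rw [abs_le]
  constructor
  · have : max (-|d|) (min |d| (t - l)) ≤ |d| := max_le (by linarith) (min_le_left _ _)
    linarith
  · have : -|d| ≤ max (-|d|) (min |d| (t - l)) := le_max_left _ _
    linarith

lemma sft_zero (d l t : ℝ) (h : |t - l| ≤ |d|) : sft d l t = 0 := by
  unfold sft
  have := abs_le.1 h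
  rw [min_eq_right this.2, max_eq_right this.1, sub_self]

lemma cert_point (hSQ : S_SQ) (g : E)
    (hg : ∀ (S : Type) [CStarAlgebra S] (π : E →⋆ₐ[ℂ] S), Sim S → Function.Surjective π →
      ∀ c : ℂ, π g ≠ c • 1) (c : ℝ) : C1 (g - (c : ℂ) • (1 : E)) := by
  by_contra hcon
  obtain ⟨S, hS, π, h1, h2, h3⟩ := hSQ E Unit (fun _ => g - (c : ℂ) • (1 : E)) (by
    rintro ⟨k, t, a, b, h⟩
    exact hcon ⟨k, a, b, h⟩)
  have h4 := h3 ()
  rw [map_sub, map_smul, map_one, sub_eq_zero] at h4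
  exact hg S π h1 h2 c h4

lemma unit_of_near (u : E) (h : ‖u - 1‖ < 1) : ∃ v : E, v * u = 1 := by
  have h1 : IsUnit (1 - (1 - u)) := isUnit_one_sub_of_norm_lt_one (by rwa [norm_sub_rev])
  rw [sub_sub_cancel] at h1
  obtain ⟨v, rfl⟩ := h1
  exact ⟨(v⁻¹ : Eˣ), by simp⟩

lemma cert_near (g : E) (hsa : star g = g) (c : ℝ) (h : C1 (g - (c : ℂ) • (1 : E))) :
    ∃ δ > 0, ∀ d l : ℝ, |l - c| < δ → |d| < δ → C1 (cfc (sft d l) g) := by
  obtain ⟨k, a, b, hab⟩ := h
  set A : ℝ := ∑ i, ‖a i‖ * ‖b i‖ + 1 with hA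
  have hA0 : 0 < A := by positivity
  refine ⟨1 / (2 * A), by positivity, fun d l hl hd => ?_⟩
  have hsa' : IsSelfAdjoint g := hsa
  have e1 : g - (c : ℂ) • (1 : E) = cfc (fun t : ℝ => t - c) g := by
    rw [cfc_sub (R := ℝ) (fun t => t) (fun _ => c) g (by fun_prop) (by fun_prop),
      cfc_id' ℝ g, cfc_const c g, Algebra.algebraMap_eq_smul_one, real_smul_eq]
  have e2 : ‖cfc (sft d l) g - (g - (c : ℂ) • (1 : E))‖ ≤ |d| + |l - c| := by
    rw [e1, ← cfc_sub (R := ℝ) _ _ g (sft_cont d l).continuousOn (by fun_prop)]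
    refine norm_cfc_le (by positivity) fun t _ => ?_
    have h1 := sft_near d l t
    rw [Real.norm_eq_abs]
    calc |sft d l t - (t - c)| = |(sft d l t - (t - l)) + (c - l)| := by ring_nf
      _ ≤ |sft d l t - (t - l)| + |c - l| := abs_add_le _ _
      _ ≤ |d| + |l - c| := by rw [abs_sub_comm c l]; linarith
  set X := cfc (sft d l) g with hX
  have e3 : ‖∑ i, a i * X * b i - 1‖ < 1 := by
    rw [← hab, ← Finset.sum_sub_distrib]
    have : ∀ i, a i * X * b i - a i * (g - (c : ℂ) • (1 : E)) * b i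
        = a i * (X - (g - (c : ℂ) • (1 : E))) * b i := fun i => by noncomm_ring
    simp only [this]
    calc ‖∑ i, a i * (X - (g - (c : ℂ) • (1 : E))) * b i‖
        ≤ ∑ i, ‖a i * (X - (g - (c : ℂ) • (1 : E))) * b i‖ := norm_sum_le _ _
      _ ≤ ∑ i, ‖a i‖ * ‖b i‖ * (|d| + |l - c|) := by
          refine Finset.sum_le_sum fun i _ => ?_
          calc ‖a i * (X - (g - (c : ℂ) • (1 : E))) * b i‖
              ≤ ‖a i‖ * ‖X - (g - (c : ℂ) • (1 : E))‖ * ‖b i‖ :=
                (norm_mul_le _ _).trans (by gcongr; exact norm_mul_le _ _)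
            _ ≤ ‖a i‖ * (|d| + |l - c|) * ‖b i‖ := by gcongr
            _ = _ := by ring
      _ = (∑ i, ‖a i‖ * ‖b i‖) * (|d| + |l - c|) := by rw [Finset.sum_mul]
      _ ≤ A * (|d| + |l - c|) := by
          gcongr
          linarith
      _ < A * (1 / (2 * A) + 1 / (2 * A)) := by gcongr
      _ = 1 := by field_simp; norm_num
  obtain ⟨v, hv⟩ := unit_of_near _ e3
  refine ⟨k, fun i => v * a i, b, ?_⟩
  rw [← hv, Finset.mul_sum]
  exact Finset.sum_congr rfl fun i _ => by noncomm_ring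

lemma cert_unif (hSQ : S_SQ) (g : E) (hsa : star g = g)
    (hg : ∀ (S : Type) [CStarAlgebra S] (π : E →⋆ₐ[ℂ] S), Sim S → Function.Surjective π →
      ∀ c : ℂ, π g ≠ c • 1) (R : ℝ) :
    ∃ δ > 0, ∀ d l : ℝ, |l| ≤ R → |d| < δ → C1 (cfc (sft d l) g) := by
  have key : ∀ᶠ d in 𝓝 (0 : ℝ), ∀ l ∈ Set.Icc (-R) R, C1 (cfc (sft d l) g) := by
    refine isCompact_Icc.eventually_forall_of_forall_eventually fun c _ => ?_
    obtain ⟨δ, hδ, h⟩ := cert_near g hsa c (cert_point hSQ g hg c)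
    rw [Metric.eventually_nhds_iff]
    refine ⟨δ, hδ, fun z hz => ?_⟩
    rw [Prod.dist_eq, max_lt_iff] at hz
    refine h z.1 z.2 ?_ ?_
    · simpa [Real.dist_eq] using hz.2
    · simpa [Real.dist_eq] using hz.1
  rw [Metric.eventually_nhds_iff] at key
  obtain ⟨δ, hδ, h⟩ := key
  exact ⟨δ, hδ, fun d l hl hd => h (by simpa [Real.dist_eq] using hd) l (abs_le.1 hl)⟩

/-- the tent function -/
def tent (s : ℝ) : ℝ := max 0 (1 - |s|)

lemma tent_nonneg (s : ℝ) : 0 ≤ tent s := le_max_left _ _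

/-- the cells -/
def cell (e : ℝ) (L c : ℕ) (t : ℝ) : ℝ := tent (t / e - ((c : ℝ) - L))

lemma cell_cont (e : ℝ) (L c : ℕ) : Continuous (cell e L c) := by
  unfold cell tent
  fun_prop

lemma cell_orth (e : ℝ) (L c c' : ℕ) (h : c + 2 ≤ c') (t : ℝ) :
    cell e L c t * cell e L c' t = 0 := by
  unfold cell tent
  have h' : (c : ℝ) + 2 ≤ c' := by exact_mod_cast h
  by_cases h1 : 1 ≤ |t / e - ((c : ℝ) - L)|
  · rw [max_eq_left (by linarith), zero_mul]
  · push Not at h1
    have h2 : 1 ≤ |t / e - ((c' : ℝ) - L)| := by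
      rw [abs_lt] at h1
      rw [le_abs]
      right
      linarith
    rw [max_eq_left (a := (0 : ℝ)) (b := 1 - |t / e - ((c' : ℝ) - L)|) (by linarith), mul_zero]

/-- the sum of the cells outside of the window `i` -/
def Wt (e : ℝ) (L i : ℕ) (t : ℝ) : ℝ :=
  ∑ c : Fin (2 * L + 1), if (c : ℕ) < i ∨ i + 4 ≤ (c : ℕ) then cell e L c t else 0

lemma Wt_cont (e : ℝ) (L i : ℕ) : Continuous (Wt e L i) := by
  unfold Wt
  refine continuous_finsetSum _ fun c _ => ?_
  split_ifs
  · exact cell_cont e L c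
  · exact continuous_const

lemma Wt_ge (e : ℝ) (he : 0 < e) (L i : ℕ) (t : ℝ) (ht : |t| ≤ L * e)
    (h : 2 * e < |t - (i + 3 / 2 - L) * e|) : 1 / 2 ≤ Wt e L i t := by
  have ht' := abs_le.1 ht
  set s : ℝ := t / e + L with hs
  have hte : t = (s - L) * e := by rw [hs]; field_simp; ring
  have hs0 : 0 ≤ s := by
    have : -(L : ℝ) ≤ t / e := by rw [le_div_iff₀ he]; linarith
    linarith
  have hs1 : s ≤ 2 * L := by
    have : t / e ≤ L := by rw [div_le_iff₀ he]; linarith
    linarith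
  -- nearest integer
  obtain ⟨n, hn1, hn2⟩ : ∃ n : ℕ, (n : ℝ) - 1 / 2 ≤ s ∧ s < n + 1 / 2 := by
    refine ⟨⌊s + 1 / 2⌋₊, ?_, ?_⟩
    · have := Nat.floor_le (a := s + 1 / 2) (by linarith)
      linarith
    · have := Nat.lt_floor_add_one (s + 1 / 2)
      linarith
  have hnL : n < 2 * L + 1 := by
    have : (n : ℝ) < ((2 * L + 1 : ℕ) : ℝ) := by push_cast; linarith
    exact_mod_cast this
  have hcell : 1 / 2 ≤ cell e L n t := by
    unfold cell tent
    refine le_max_of_le_right ?_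
    have : t / e - ((n : ℝ) - L) = s - n := by rw [hs]; ring
    rw [this]
    have : |s - n| ≤ 1 / 2 := by rw [abs_le]; constructor <;> linarith
    linarith
  have hout : n < i ∨ i + 4 ≤ n := by
    by_contra hcon
    push Not at hcon
    have h1 : (i : ℝ) ≤ n := by exact_mod_cast hcon.1
    have h2 : (n : ℝ) ≤ i + 3 := by
      have : n ≤ i + 3 := by omega
      exact_mod_cast this
    have h3 : t - (i + 3 / 2 - L) * e = (s - (i + 3 / 2)) * e := by rw [hte]; ring
    rw [h3, abs_mul, abs_of_pos he] at h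
    have h4 : |s - (i + 3 / 2)| ≤ 2 := by rw [abs_le]; constructor <;> linarith
    nlinarith
  unfold Wt
  have h5 : cell e L n t ≤ ∑ c : Fin (2 * L + 1),
      if (c : ℕ) < i ∨ i + 4 ≤ (c : ℕ) then cell e L c t else 0 := by
    have h6 := Finset.single_le_sum (f := fun c : Fin (2 * L + 1) =>
      if (c : ℕ) < i ∨ i + 4 ≤ (c : ℕ) then cell e L c t else 0) (s := Finset.univ)
      (fun c _ => by
        split_ifs
        · exact tent_nonneg _
        · exact le_rfl) (Finset.mem_univ (⟨n, hnL⟩ : Fin (2 * L + 1)))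
    dsimp only at h6
    rw [if_pos hout] at h6
    exact h6
  linarith

/-- certificate in terms of the cells outside of window `i` -/
lemma window (g : E) (hsa : star g = g) (e : ℝ) (he : 0 < e) (L i : ℕ) (hL : ‖g‖ ≤ L * e)
    (h : C1 (cfc (sft (2 * e) ((i + 3 / 2 - L) * e)) g)) :
    ∃ k0 : ℕ, ∀ k ≥ k0, ∃ a b : Fin k → E,
      (∑ c : Fin (2 * L + 1), if (c : ℕ) < i ∨ i + 4 ≤ (c : ℕ) then
        ∑ j, a j * cfc (cell e L c) g * b j else 0) = 1 := by
  obtain ⟨k0, a, b, hab⟩ := h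
  have hsa' : IsSelfAdjoint g := hsa
  set l : ℝ := (i + 3 / 2 - L) * e with hl
  set kf : ℝ → ℝ := fun t => sft (2 * e) l t / max (Wt e L i t) (1 / 2) with hkf
  have hkc : Continuous kf := by
    refine (sft_cont _ _).div ((Wt_cont e L i).max continuous_const) fun t => ?_
    have : (1 / 2 : ℝ) ≤ max (Wt e L i t) (1 / 2) := le_max_right _ _
    linarith
  have e1 : cfc (sft (2 * e) l) g = cfc (Wt e L i) g * cfc kf g := by
    rw [← cfc_mul (R := ℝ) _ _ g (Wt_cont e L i).continuousOn hkc.continuousOn]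
    refine cfc_congr fun t ht => ?_
    have ht1 : |t| ≤ L * e := by
      have : ‖t‖ ≤ ‖g‖ := by
        rcases subsingleton_or_nontrivial E with hs | hs
        · simp [spectrum.of_subsingleton] at ht
        · exact spectrum.norm_le_norm_of_mem ht
      rw [Real.norm_eq_abs] at this
      linarith
    by_cases h2 : |t - l| ≤ 2 * e
    · have h3 : sft (2 * e) l t = 0 := sft_zero _ _ _ (h2.trans (le_abs_self _))
      simp only [hkf, h3, zero_div, mul_zero]
    · push Not at h2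
      have h3 := Wt_ge e he L i t ht1 h2
      simp only [hkf]
      rw [max_eq_left h3]
      have : Wt e L i t ≠ 0 := by linarith
      field_simp
  have e2 : cfc (Wt e L i) g = ∑ c : Fin (2 * L + 1),
      if (c : ℕ) < i ∨ i + 4 ≤ (c : ℕ) then cfc (cell e L c) g else 0 := by
    have h1 : Wt e L i = ∑ c : Fin (2 * L + 1),
      (if (c : ℕ) < i ∨ i + 4 ≤ (c : ℕ) then cell e L c else fun _ => 0) := by
      funext t
      unfold Wt
      rw [Finset.sum_apply]
      refine Finset.sum_congr rfl fun c _ => ?_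
      split_ifs <;> rfl
    have h2 : ∀ c : Fin (2 * L + 1), ContinuousOn
        (if (c : ℕ) < i ∨ i + 4 ≤ (c : ℕ) then cell e L c else fun _ => 0) (spectrum ℝ g) := by
      intro c
      split_ifs
      · exact (cell_cont e L c).continuousOn
      · exact continuousOn_const
    rw [h1, cfc_sum_univ (R := ℝ) (fun c : Fin (2 * L + 1) =>
      (if (c : ℕ) < i ∨ i + 4 ≤ (c : ℕ) then cell e L c else fun _ => 0)) g h2]
    refine Finset.sum_congr rfl fun c _ => ?_
    split_ifs
    · rfl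
    · exact cfc_const_zero ℝ g
  refine ⟨k0, fun k hk => ?_⟩
  obtain ⟨r, rfl⟩ := Nat.exists_eq_add_of_le hk
  refine ⟨Fin.append a 0, Fin.append (fun j => cfc kf g * b j) 0, ?_⟩
  have e3 : ∀ x : E, ∑ j, Fin.append a (0 : Fin r → E) j * x *
      Fin.append (fun j => cfc kf g * b j) (0 : Fin r → E) j = ∑ j, a j * x * (cfc kf g * b j) := by
    intro x
    rw [Fin.sum_univ_add]
    simp
  simp only [e3]
  rw [← hab, e1, e2]
  simp only [Finset.sum_mul, Finset.mul_sum]
  rw [Finset.sum_comm]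
  refine Finset.sum_congr rfl fun c _ => ?_
  split_ifs
  · exact Finset.sum_congr rfl fun j _ => by noncomm_ring
  · simp

theorem t_WIN (hSQ : S_SQ) : S_WIN := by
  intro E _ hE g hsa hg
  have hsa' : IsSelfAdjoint g := hsa
  obtain ⟨δ, hδ, hC⟩ := cert_unif hSQ g hsa hg (‖g‖ + 3)
  set e : ℝ := min δ 1 / 4 with he
  have he0 : 0 < e := by positivity
  have he1 : e ≤ 1 := by
    have := min_le_right δ 1
    linarith
  have he2 : 2 * e < δ := by
    have := min_le_left δ 1
    linarith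
  set L : ℕ := ⌈‖g‖ / e⌉₊ with hL
  have hL1 : ‖g‖ ≤ L * e := by
    have := Nat.le_ceil (‖g‖ / e)
    rwa [div_le_iff₀ he0] at this
  have hL2 : (L : ℝ) * e ≤ ‖g‖ + e := by
    have := (Nat.ceil_lt_add_one (a := ‖g‖ / e) (by positivity)).le
    calc (L : ℝ) * e ≤ (‖g‖ / e + 1) * e := by gcongr
      _ = ‖g‖ + e := by field_simp
  have hw : ∀ i : Fin (2 * L + 1), ∃ k0 : ℕ, ∀ k ≥ k0, ∃ a b : Fin k → E,
      (∑ c : Fin (2 * L + 1), if (c : ℕ) < i ∨ (i : ℕ) + 4 ≤ (c : ℕ) then
        ∑ j, a j * cfc (cell e L c) g * b j else 0) = 1 := by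
    intro i
    refine window g hsa e he0 L i hL1 (hC _ _ ?_ ?_)
    · have h1 : ((i : ℕ) : ℝ) ≤ 2 * L := by
        have := i.2
        have : (i : ℕ) ≤ 2 * L := by omega
        exact_mod_cast this
      have h2 : (0 : ℝ) ≤ ((i : ℕ) : ℝ) := Nat.cast_nonneg _
      rw [abs_le]
      constructor <;> nlinarith
    · rw [abs_of_pos (by positivity)]
      exact he2
  choose k0 hk0 using hw
  have hk : ∀ i : Fin (2 * L + 1), ∃ a b : Fin (Finset.univ.sup k0) → E,
      (∑ c : Fin (2 * L + 1), if (c : ℕ) < i ∨ (i : ℕ) + 4 ≤ (c : ℕ) then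
        ∑ j, a j * cfc (cell e L c) g * b j else 0) = 1 :=
    fun i => hk0 i _ (Finset.le_sup (Finset.mem_univ i))
  choose a b hab using hk
  refine ⟨2 * L + 1, Finset.univ.sup k0, fun x => match x with
    | .inl c => cfc (cell e L c) g
    | .inr (false, i, _, j) => a i j
    | .inr (true, i, _, j) => b i j, ?_⟩
  refine ⟨by omega, fun c => cfc_sa _ _, fun c c' hcc => ?_, fun i => hab i⟩
  show cfc (cell e L c) g * cfc (cell e L c') g = 0
  rw [← cfc_mul (R := ℝ) _ _ g (cell_cont e L c).continuousOn (cell_cont e L c').continuousOn,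
    ← cfc_const_zero ℝ g]
  exact cfc_congr fun t _ => cell_orth e L c c' hcc t

end Pool.Agent.N383.DT
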